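import Pool.Agent.helper7.AL.SpecM

/-!
# Row MQU of project AL (MP_bf63dc_nt): positive density for every pair and every modulus, assembly
-/

set_option autoImplicit false

namespace Pool.Agent.AL

open Finset Pool.Agent.helper85.FC Pool.Agent.helper11.MK

private lemma MQU_fac {l : ℕ} (hl : 5 ≤ l) : 0 < 1 - 2 / (l : ℝ) ∧ 1 - 2 / (l : ℝ) ≤ 1 := by
  have h5 : (5 : ℝ) ≤ l := by exact_mod_cast hl
  have h0 : (0 : ℝ) < l := by linarith
  constructor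
  · have : 2 / (l : ℝ) < 1 := by rw [div_lt_one h0]; linarith
    linarith
  · have : 0 ≤ 2 / (l : ℝ) := by positivity
    linarith

open Classical in
private lemma MQU_dc (G S : ℤ → Prop) (s : ℕ × ℕ → ℤ) (m : ℕ) (T : Finset (ℕ × ℕ)) (I : Finset ℤ)
    (h : ∀ c : ℤ, #{t ∈ T | S (c - s t)} ≤ m) :
    ∑ t ∈ T, (#{c ∈ I | G c ∧ S (c - s t)} : ℝ) ≤ m * #{c ∈ I | G c} := by
  have h1 : ∀ t ∈ T, (#{c ∈ I | G c ∧ S (c - s t)} : ℝ) =
      ∑ c ∈ I with G c, (if S (c - s t) then (1 : ℝ) else 0) := by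
    intro t _
    rw [← Finset.filter_filter, Finset.card_filter]
    push_cast
    rfl
  rw [Finset.sum_congr rfl h1, Finset.sum_comm]
  have h2 : ∀ c ∈ I.filter G, ∑ t ∈ T, (if S (c - s t) then (1 : ℝ) else 0) ≤ m := by
    intro c _
    have h3 : ∑ t ∈ T, (if S (c - s t) then (1 : ℝ) else 0) = (#{t ∈ T | S (c - s t)} : ℝ) := by
      rw [Finset.card_filter]
      push_cast
      rfl
    rw [h3]
    exact_mod_cast h c
  calc ∑ c ∈ I.filter G, ∑ t ∈ T, (if S (c - s t) then (1 : ℝ) else 0)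
      ≤ ∑ c ∈ I.filter G, (m : ℝ) := Finset.sum_le_sum h2
    _ = m * #{c ∈ I | G c} := by rw [Finset.sum_const, nsmul_eq_mul, mul_comm]

/-- The numerical end of the proof. -/
private lemma MQU_num (g sN Q M C₁ C₂ ε e e' μ : ℝ) (hε0 : 0 < ε) (hε1 : ε ≤ 1) (he : e ≤ 1 / 4)
    (hQM : 0 ≤ Q * M) (hμ : 1 ≤ μ) (hμe : μ * e ≤ e')
    (h4 : (1 - ε) * sN - C₂ ≤ μ * g) (h3 : e' * (Q * M) - C₁ ≤ sN)
    (hM : |C₁| + |C₂| ≤ 3 / 4 * ε * (Q * M)) :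
    (e - ε) * (Q * M) ≤ g := by
  have h5 : μ * e * (Q * M) ≤ e' * (Q * M) := mul_le_mul_of_nonneg_right hμe hQM
  have h8 : (1 - ε) * (μ * e * (Q * M) - C₁) ≤ (1 - ε) * sN :=
    mul_le_mul_of_nonneg_left (by linarith) (by linarith)
  have h9 : (1 - ε) * C₁ ≤ |C₁| := by
    calc (1 - ε) * C₁ ≤ (1 - ε) * |C₁| := mul_le_mul_of_nonneg_left (le_abs_self _) (by linarith)
      _ ≤ 1 * |C₁| := mul_le_mul_of_nonneg_right (by linarith) (abs_nonneg _)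
      _ = |C₁| := one_mul _
  have h10 : μ * ((1 - ε) * e * (Q * M)) - (|C₁| + |C₂|) ≤ μ * g := by
    have h11 := le_abs_self C₂
    have h12 : μ * ((1 - ε) * e * (Q * M)) = (1 - ε) * (μ * e * (Q * M)) := by ring
    have h13 : (1 - ε) * (μ * e * (Q * M) - C₁) = (1 - ε) * (μ * e * (Q * M)) - (1 - ε) * C₁ := by ring
    linarith
  have hC0 : 0 ≤ |C₁| + |C₂| := by positivity
  have h14 : (1 - ε) * e * (Q * M) - (|C₁| + |C₂|) ≤ g := by
    have h15 : μ * ((1 - ε) * e * (Q * M) - (|C₁| + |C₂|)) ≤ μ * g := by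
      have h16 : μ * ((1 - ε) * e * (Q * M) - (|C₁| + |C₂|)) =
          μ * ((1 - ε) * e * (Q * M)) - μ * (|C₁| + |C₂|) := by ring
      have h17 : |C₁| + |C₂| ≤ μ * (|C₁| + |C₂|) := by nlinarith
      linarith
    exact le_of_mul_le_mul_left h15 (by linarith)
  have h18 : ε * e * (Q * M) ≤ ε * (1 / 4) * (Q * M) := by
    apply mul_le_mul_of_nonneg_right _ hQM
    exact mul_le_mul_of_nonneg_left he hε0.le
  have h19 : (e - ε) * (Q * M) = (1 - ε) * e * (Q * M) + ε * e * (Q * M) - ε * (Q * M) := by ring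
  have h20 : ε * (1 / 4) * (Q * M) = 1 / 4 * (ε * (Q * M)) := by ring
  have h21 : 3 / 4 * ε * (Q * M) = 3 / 4 * (ε * (Q * M)) := by ring
  rw [h19]
  linarith

private lemma MQU_em (m : ℕ) (hm : 1 ≤ m) : em m ≤ 1 / 4 := by
  have hm1 : (1 : ℝ) ≤ m := by exact_mod_cast hm
  have h1 : 1 / (m : ℝ) ≤ 1 := by
    rw [div_le_one (by linarith)]
    exact hm1
  have h1' : 0 ≤ 1 / (m : ℝ) := by positivity
  have h2 : 0 ≤ (if 2 ∣ m then (1 : ℝ) else 1 / 2) ∧ (if 2 ∣ m then (1 : ℝ) else 1 / 2) ≤ 1 := by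
    split_ifs <;> norm_num
  have h3 : 0 ≤ (if 3 ∣ m then (1 / 4 : ℝ) else 1 / 6) ∧ (if 3 ∣ m then (1 / 4 : ℝ) else 1 / 6) ≤ 1 / 4 := by
    split_ifs <;> norm_num
  unfold em
  have h4 : 1 / (m : ℝ) * (if 2 ∣ m then (1 : ℝ) else 1 / 2) ≤ 1 := by
    calc 1 / (m : ℝ) * (if 2 ∣ m then (1 : ℝ) else 1 / 2) ≤ 1 * 1 :=
          mul_le_mul h1 h2.2 h2.1 (by norm_num)
      _ = 1 := one_mul 1
  calc 1 / (m : ℝ) * (if 2 ∣ m then (1 : ℝ) else 1 / 2) * (if 3 ∣ m then (1 / 4 : ℝ) else 1 / 6)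
      ≤ 1 * (1 / 4) := mul_le_mul h4 h3.2 h3.1 (by norm_num)
    _ = 1 / 4 := one_mul _

open Classical in
theorem MQU (hMPI : MPI_stmt) (hGPC : GPC_stmt) (hSUM : SUM_stmt) (hM3 : M3_stmt) (hMCN : MCN_stmt) :
    MQU_stmt := by
  intro k m hk hm hB hno a b c' hP ε hε
  have ha : 0 < a := hP.1
  have hb : 0 < b := hP.2.1
  have hab : Nat.Coprime a b := hP.2.2.2.1
  obtain ⟨Q, hQ⟩ : ∃ Q : ℝ, Q = ∏ l ∈ (a * b).primeFactors with 5 ≤ l ∧ ¬ l ∣ m, (1 - 2 / (l : ℝ)) := ⟨_, rfl⟩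
  have hQ0 : 0 < Q := by
    rw [hQ]
    exact Finset.prod_pos fun l hl => (MQU_fac (Finset.mem_filter.1 hl).2.1).1
  rw [← hQ]
  by_cases hε1 : em m ≤ ε
  · refine ⟨0, fun M _ u => ?_⟩
    have h1 : (em m - ε) * Q * M ≤ 0 := by
      have : (em m - ε) * Q ≤ 0 := mul_nonpos_of_nonpos_of_nonneg (by linarith) hQ0.le
      exact mul_nonpos_of_nonpos_of_nonneg this (Nat.cast_nonneg M)
    exact h1.trans (Nat.cast_nonneg _)
  push Not at hε1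
  have hem := MQU_em m hm
  obtain ⟨L₀, hL₀⟩ := hGPC k hk hB ε hε
  obtain ⟨L, hL0L, hL1⟩ : ∃ L : ℕ, L₀ ≤ L ∧ 1 ≤ L := ⟨max L₀ 1, le_max_left _ _, le_max_right _ _⟩
  obtain ⟨W₀, hW₀⟩ : ∃ W₀ : ℕ, W₀ = 6 * a * b * (4 * k).factorial := ⟨_, rfl⟩
  have hW₀0 : 0 < W₀ := by
    have := Nat.factorial_pos (4 * k)
    rw [hW₀]
    positivity
  obtain ⟨W, hW⟩ : ∃ W : ℕ, W = m * W₀ := ⟨_, rfl⟩
  have hW0 : 0 < W := by
    rw [hW]
    exact Nat.mul_pos hm hW₀0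
  have hLW : 1 ≤ L * W := Nat.mul_pos hL1 hW0
  obtain ⟨X, Y, u₀, hX, hY, hu, hXW, hYW, hbad⟩ := hMPI L W m hL1 hW0 hm (hno (L * W) hLW)
  have hW₀W : (W₀ : ℤ) ∣ (W : ℤ) := by
    rw [hW]
    exact_mod_cast Dvd.intro_left m rfl
  have hmW : (m : ℤ) ∣ (W : ℤ) := by
    rw [hW]
    exact_mod_cast Dvd.intro W₀ rfl
  have hmu : (m : ℤ) ∣ u₀ := by
    refine dvd_trans ?_ hu
    exact_mod_cast Dvd.intro_left 2 rfl
  have hdisj : Disjoint X Y := by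
    rw [Finset.disjoint_left]
    intro x hx hy
    exact (hbad x hx x hy).1 (sub_self x)
  obtain ⟨S, hS⟩ : ∃ S : ℤ → Prop, S = fun c => (m : ℤ) ∣ c - c' ∧ S0 a b u₀ c := ⟨_, rfl⟩
  have hper : ∀ c t : ℤ, S (c + W * t) ↔ S c := by
    intro c t
    rw [hS]
    refine and_congr ?_ ?_
    · have e : c + W * t - c' = (c - c') + W * t := by ring
      rw [e]
      exact dvd_add_left (Dvd.dvd.mul_right hmW t)
    · refine forall_congr' fun l => forall_congr' fun hl => forall_congr' fun hd => ?_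
      have hlW : (l : ℤ) ∣ (W : ℤ) * t := by
        refine Dvd.dvd.mul_right (dvd_trans ?_ hW₀W) t
        rw [hW₀]
        exact_mod_cast Dvd.dvd.mul_right hd _
      refine exists_congr fun h => exists_congr fun h' => and_congr_left fun _ => ?_
      have e : c + W * t - (a * h - b * h') = (c - (a * h - b * h')) + W * t := by ring
      rw [e]
      exact (dvd_add_left hlW)
  obtain ⟨C₁, hC₁⟩ := hMCN m a b u₀ c' hm hu hP
  rw [← hQ] at hC₁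
  obtain ⟨C₂, hC₂⟩ := hSUM W a b L X Y u₀ S (TrueCase a b) hL1 hX hY hdisj hper
    (fun x hx => (hXW x hx).1) (fun y hy => (hYW y hy).1)
  have hε2 : ε ≤ 1 := by linarith
  have key := hC₂ (1 - ε) (by linarith) (by linarith) (fun c₀ hc₀ hz =>
    hL₀ L a b X Y u₀ hL0L ha hb hab hX hY (fun x hx => by
      rw [← hW₀]
      exact dvd_trans hW₀W (hXW x hx).1) (fun y hy => by
      rw [← hW₀]
      exact dvd_trans hW₀W (hYW y hy).1) hbad c₀ (by rw [hS] at hc₀; exact hc₀.2) hz)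
  -- the multiplicity
  obtain ⟨e', he'⟩ : ∃ e' : ℝ, e' = 1 / (m : ℝ) * (if 2 ∣ m then 1 else 1 / 2) *
      (if 3 ∣ m then 1 else (#{r ∈ range 3 | Loc a b u₀ 3 (r : ℕ)} : ℝ) / 3) := ⟨_, rfl⟩
  rw [← he'] at hC₁
  have hm0 : 0 ≤ 1 / (m : ℝ) * (if 2 ∣ m then (1 : ℝ) else 1 / 2) := by
    apply mul_nonneg
    · positivity
    · split_ifs <;> norm_num
  obtain ⟨μ, hμ1, hμS, hμe⟩ : ∃ μ : ℕ, 1 ≤ μ ∧ (∀ c : ℤ, #{t ∈ (range 2) ×ˢ (range 2) |
      S (c - ((t.1 : ℤ) * (a * u₀) - t.2 * (b * u₀)))} ≤ μ) ∧ (μ : ℝ) * em m ≤ e' := by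
    by_cases h3 : 3 ∣ m
    · refine ⟨4, by norm_num, fun c => (Finset.card_filter_le _ _).trans (by simp), ?_⟩
      rw [he']
      unfold em
      rw [if_pos h3, if_pos h3]
      apply le_of_eq
      push_cast
      ring
    · obtain ⟨μ, hμ2, hμL, hμ⟩ := hM3 a b u₀ hab
      refine ⟨μ, by omega, fun c => (Finset.card_le_card ?_).trans (hμ c), ?_⟩
      · intro t ht
        rw [Finset.mem_filter] at ht ⊢
        refine ⟨ht.1, ?_⟩
        have h5 := ht.2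
        rw [hS] at h5
        exact h5.2 3 Nat.prime_three ⟨2 * a * b, by ring⟩
      · rw [he']
        unfold em
        rw [if_neg h3, if_neg h3]
        have hμr : (μ : ℝ) ≤ 2 * (#{r ∈ range 3 | Loc a b u₀ 3 (r : ℕ)} : ℝ) := by exact_mod_cast hμL
        calc (μ : ℝ) * (1 / (m : ℝ) * (if 2 ∣ m then (1 : ℝ) else 1 / 2) * (1 / 6)) =
            1 / (m : ℝ) * (if 2 ∣ m then (1 : ℝ) else 1 / 2) * (μ / 6) := by ring
          _ ≤ 1 / (m : ℝ) * (if 2 ∣ m then (1 : ℝ) else 1 / 2) *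
              ((#{r ∈ range 3 | Loc a b u₀ 3 (r : ℕ)} : ℝ) / 3) :=
            mul_le_mul_of_nonneg_left (by linarith) hm0
  refine ⟨⌈(|C₁| + |C₂|) / (3 / 4 * ε * Q)⌉₊, fun M hM u => ?_⟩
  have hM' : |C₁| + |C₂| ≤ 3 / 4 * ε * (Q * M) := by
    have h1 : (|C₁| + |C₂|) / (3 / 4 * ε * Q) ≤ M := (Nat.le_ceil _).trans (by exact_mod_cast hM)
    rw [div_le_iff₀ (by positivity)] at h1
    linarith
  have h1 := key u M
  obtain ⟨G', hG'⟩ : ∃ G' : ℤ → Prop, ∀ c, G' c ↔ ((m : ℤ) ∣ c - c' ∧ TrueCase a b c) := ⟨_, fun _ => Iff.rfl⟩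
  have h2 := MQU_dc G' S
    (fun t => (t.1 : ℤ) * (a * u₀) - t.2 * (b * u₀)) μ ((range 2) ×ˢ (range 2)) (Ioc u (u + M)) hμS
  have h2' : ∑ t ∈ (range 2) ×ˢ (range 2), (#{c ∈ Ioc u (u + M) | TrueCase a b c ∧
      S (c - ((t.1 : ℤ) * (a * u₀) - t.2 * (b * u₀)))} : ℝ) ≤
      ∑ t ∈ (range 2) ×ˢ (range 2), (#{c ∈ Ioc u (u + M) | G' c ∧
      S (c - ((t.1 : ℤ) * (a * u₀) - t.2 * (b * u₀)))} : ℝ) := by
    refine Finset.sum_le_sum fun t _ => ?_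
    have : #{c ∈ Ioc u (u + M) | TrueCase a b c ∧
      S (c - ((t.1 : ℤ) * (a * u₀) - t.2 * (b * u₀)))} ≤
      #{c ∈ Ioc u (u + M) | G' c ∧
      S (c - ((t.1 : ℤ) * (a * u₀) - t.2 * (b * u₀)))} := by
      apply Finset.card_le_card
      intro c hc
      rw [Finset.mem_filter] at hc ⊢
      refine ⟨hc.1, (hG' c).2 ⟨?_, hc.2.1⟩, hc.2.2⟩
      have h5 := hc.2.2
      rw [hS] at h5
      have h6 := h5.1
      have h7 : (m : ℤ) ∣ (t.1 : ℤ) * (a * u₀) - t.2 * (b * u₀) := by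
        apply dvd_sub
        · exact Dvd.dvd.mul_left (Dvd.dvd.mul_left hmu _) _
        · exact Dvd.dvd.mul_left (Dvd.dvd.mul_left hmu _) _
      have h8 : c - c' = (c - ((t.1 : ℤ) * (a * u₀) - t.2 * (b * u₀)) - c') +
        ((t.1 : ℤ) * (a * u₀) - t.2 * (b * u₀)) := by ring
      rw [h8]
      exact dvd_add h6 h7
    exact_mod_cast this
  have h3 := hC₁ u M
  have h4 : (1 - ε) * (#{c ∈ Ioc u (u + M) | S c} : ℝ) - C₂ ≤
      μ * (#{c ∈ Ioc u (u + M) | G' c} : ℝ) := h1.trans (h2'.trans h2)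
  have hcS : #{c ∈ Ioc u (u + M) | S c} = #{c ∈ Ioc u (u + M) | (m : ℤ) ∣ c - c' ∧ S0 a b u₀ c} := by
    apply congrArg Finset.card
    ext c
    rw [Finset.mem_filter, Finset.mem_filter, hS]
  have hcG : #{c ∈ Ioc u (u + M) | G' c} = #{c ∈ Ioc u (u + M) | (m : ℤ) ∣ c - c' ∧ TrueCase a b c} := by
    apply congrArg Finset.card
    ext c
    rw [Finset.mem_filter, Finset.mem_filter, hG']
  have h3' : e' * (Q * M) - C₁ ≤ (#{c ∈ Ioc u (u + M) | S c} : ℝ) := by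
    rw [hcS]
    linarith [mul_assoc e' Q (M : ℝ)]
  rw [← hcG]
  have hfin := MQU_num _ _ Q M C₁ C₂ ε (em m) e' μ hε hε2 hem (by positivity) (by exact_mod_cast hμ1)
    hμe h4 h3' hM'
  rw [mul_assoc]
  exact hfin

end Pool.Agent.AL
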