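import Pool.Agent.helper7.AL.SpecD

/-!
# Row LDD of project AL (MP_bf63dc_nt): the duality between shifts and coefficients, assembly
-/

set_option autoImplicit false

namespace Pool.Agent.LD

open Finset Pool.Agent.helper85.FC Pool.Agent.AT

private lemma LDD_v {m : ℕ} (μ : Fin m → ℕ) (hμ : ∀ p, 0 < μ p) : ∃ v : Fin m → ℕ, ∀ p q, p ≠ q → μ q * v p ≠ μ p * v q := by
  obtain ⟨V, hV⟩ : ∃ V : ℕ, V = ∑ p, μ p + 1 := ⟨_, rfl⟩
  have hlt : ∀ p, μ p < V := by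
    intro p
    rw [hV]
    have := Finset.single_le_sum (f := μ) (fun _ _ => Nat.zero_le _) (Finset.mem_univ p)
    omega
  have hV0 : 0 < V := by omega
  have key : ∀ p q : Fin m, p < q → μ q * V ^ ((p : ℕ) + 1) ≠ μ p * V ^ ((q : ℕ) + 1) := by
    intro p q hpq h
    obtain ⟨d, hd⟩ : ∃ d : ℕ, (q : ℕ) = p + (d + 1) := ⟨(q : ℕ) - p - 1, by have := Fin.lt_def.mp hpq; omega⟩
    have h1 : μ p * V ^ ((q : ℕ) + 1) = μ p * V ^ d * V * V ^ ((p : ℕ) + 1) := by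
      rw [hd]
      ring
    rw [h1] at h
    have h2 := Nat.eq_of_mul_eq_mul_right (by positivity) h
    have h3 : 1 ≤ μ p * V ^ d := Nat.mul_pos (hμ p) (by positivity)
    have h4 : V ≤ μ p * V ^ d * V := Nat.le_mul_of_pos_left V h3
    have := hlt q
    omega
  refine ⟨fun p => V ^ ((p : ℕ) + 1), fun p q hpq => ?_⟩
  rcases lt_or_gt_of_ne hpq with h | h
  · exact key p q h
  · intro h'
    exact key q p h h'.symm

/-- One application of the box theorem. -/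
private lemma LDD_box {k m K₁ K₀ : ℕ}
    (hK₁ : ∀ H : Fin (m * k) → Finset (ℕ × ℤ), (∀ i, K₁ ≤ #(H i)) → (∀ i, ∀ f ∈ H i, 0 < f.1) →
      (∀ f ∈ Fintype.piFinset H, Adm f ∧ Function.Injective f) → ∃ f ∈ Fintype.piFinset H, Many f)
    (hKK : K₁ ≤ K₀) (s : Fin k → ℕ) (H : Fin k → Finset ℤ) (μ : Fin m → ℕ) (h : Fin m → ℤ)
    (hs : ∀ i, 0 < s i) (hμ : ∀ p, 0 < μ p) (hc : ∀ i, #(H i) = K₀)
    (hA : ∀ x : Fin m → Fin k → ℤ, (∀ p, x p ∈ Fintype.piFinset H) →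
      Adm (cop m s μ h x) ∧ Function.Injective (cop m s μ h x)) :
    ∃ x : Fin m → Fin k → ℤ, (∀ p, x p ∈ Fintype.piFinset H) ∧ Many (cop m s μ h x) := by
  classical
  have hinj : ∀ r : Fin (m * k), Function.Injective (fun x : ℤ => (s (finProdFinEquiv.symm r).2 * μ (finProdFinEquiv.symm r).1,
      s (finProdFinEquiv.symm r).2 * h (finProdFinEquiv.symm r).1 + x)) := by
    intro r x y hxy
    have h1 := congrArg Prod.snd hxy
    simp only at h1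
    linarith
  obtain ⟨HB, hHB⟩ : ∃ HB : Fin (m * k) → Finset (ℕ × ℤ), HB = fun r => (H (finProdFinEquiv.symm r).2).image
      (fun x : ℤ => (s (finProdFinEquiv.symm r).2 * μ (finProdFinEquiv.symm r).1,
        s (finProdFinEquiv.symm r).2 * h (finProdFinEquiv.symm r).1 + x)) := ⟨_, rfl⟩
  have hcard : ∀ r, K₁ ≤ #(HB r) := by
    intro r
    rw [hHB]
    simp only
    rw [Finset.card_image_of_injective _ (hinj r), hc]
    exact hKK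
  have hform : ∀ f ∈ Fintype.piFinset HB, ∃ x : Fin m → Fin k → ℤ, (∀ p, x p ∈ Fintype.piFinset H) ∧ f = cop m s μ h x := by
    intro f hf
    rw [Fintype.mem_piFinset] at hf
    have h1 : ∀ r : Fin (m * k), ∃ y ∈ H (finProdFinEquiv.symm r).2, (s (finProdFinEquiv.symm r).2 * μ (finProdFinEquiv.symm r).1,
        s (finProdFinEquiv.symm r).2 * h (finProdFinEquiv.symm r).1 + y) = f r := by
      intro r
      have h2 := hf r
      rw [hHB] at h2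
      simp only at h2
      rw [Finset.mem_image] at h2
      exact h2
    choose y hy hyf using h1
    refine ⟨fun p i => y (finProdFinEquiv (p, i)), fun p => ?_, ?_⟩
    · rw [Fintype.mem_piFinset]
      intro i
      have h3 := hy (finProdFinEquiv (p, i))
      rw [Equiv.symm_apply_apply] at h3
      exact h3
    · funext r
      rw [← hyf r]
      unfold cop
      simp only [Prod.mk.eta, Equiv.apply_symm_apply]
  obtain ⟨f, hf, hM⟩ := hK₁ HB hcard (by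
    intro r f hf
    rw [hHB] at hf
    simp only at hf
    rw [Finset.mem_image] at hf
    obtain ⟨x, -, rfl⟩ := hf
    exact Nat.mul_pos (hs _) (hμ _)) (by
    intro f hf
    obtain ⟨x, hx, rfl⟩ := hform f hf
    exact hA x hx)
  obtain ⟨x, hx, rfl⟩ := hform f hf
  exact ⟨x, hx, hM⟩

/-- The value as a linear function of `t`. -/
private lemma LDD_val (a b : ℕ) (si sj : ℕ) (h₀ Q vp vq x y t : ℤ) (ha : 0 < a) :
    ((b : ℤ) * (si * (h₀ + Q * (vp * t)) + x) - a * (sj * (h₀ + Q * (vq * t)) + y)) / (Nat.gcd a b : ℕ) =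
      (((b / Nat.gcd a b : ℕ) : ℤ) * (si * (Q * vp)) - ((a / Nat.gcd a b : ℕ) : ℤ) * (sj * (Q * vq))) * t +
        (((b / Nat.gcd a b : ℕ) : ℤ) * (si * h₀ + x) - ((a / Nat.gcd a b : ℕ) : ℤ) * (sj * h₀ + y)) := by
  have hg : 0 < Nat.gcd a b := Nat.gcd_pos_of_pos_left b ha
  have hg' : ((Nat.gcd a b : ℕ) : ℤ) ≠ 0 := by exact_mod_cast hg.ne'
  have h1 : (a : ℤ) = (Nat.gcd a b : ℕ) * ((a / Nat.gcd a b : ℕ) : ℤ) := by
    exact_mod_cast (Nat.mul_div_cancel' (Nat.gcd_dvd_left a b)).symm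
  have h2 : (b : ℤ) = (Nat.gcd a b : ℕ) * ((b / Nat.gcd a b : ℕ) : ℤ) := by
    exact_mod_cast (Nat.mul_div_cancel' (Nat.gcd_dvd_right a b)).symm
  apply Int.ediv_eq_of_eq_mul_right hg'
  obtain ⟨a', ha'⟩ : ∃ a' : ℤ, a' = ((a / Nat.gcd a b : ℕ) : ℤ) := ⟨_, rfl⟩
  obtain ⟨b', hb'⟩ : ∃ b' : ℤ, b' = ((b / Nat.gcd a b : ℕ) : ℤ) := ⟨_, rfl⟩
  obtain ⟨g, hgd⟩ : ∃ g : ℤ, g = ((Nat.gcd a b : ℕ) : ℤ) := ⟨_, rfl⟩
  rw [← ha', ← hb', ← hgd]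
  rw [← ha', ← hgd] at h1
  rw [← hb', ← hgd] at h2
  rw [h1, h2]
  ring

/-- The leading coefficient is not zero. -/
private lemma LDD_ne (μp μq si sj : ℕ) (Q vp vq : ℕ) (hsi : 0 < si) (hsj : 0 < sj) (hQ : 0 < Q)
    (hv : μq * vp ≠ μp * vq) :
    (((sj * μq / Nat.gcd (si * μp) (sj * μq) : ℕ) : ℤ) * (si * ((Q : ℤ) * vp)) -
      ((si * μp / Nat.gcd (si * μp) (sj * μq) : ℕ) : ℤ) * (sj * ((Q : ℤ) * vq))) ≠ 0 := by
  intro h0
  have h1 : ((si * μp : ℕ) : ℤ) = (Nat.gcd (si * μp) (sj * μq) : ℕ) * ((si * μp / Nat.gcd (si * μp) (sj * μq) : ℕ) : ℤ) := by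
    exact_mod_cast (Nat.mul_div_cancel' (Nat.gcd_dvd_left (si * μp) (sj * μq))).symm
  have h2 : ((sj * μq : ℕ) : ℤ) = (Nat.gcd (si * μp) (sj * μq) : ℕ) * ((sj * μq / Nat.gcd (si * μp) (sj * μq) : ℕ) : ℤ) := by
    exact_mod_cast (Nat.mul_div_cancel' (Nat.gcd_dvd_right (si * μp) (sj * μq))).symm
  have h3 : ((sj * μq : ℕ) : ℤ) * (si * ((Q : ℤ) * vp)) - ((si * μp : ℕ) : ℤ) * (sj * ((Q : ℤ) * vq)) = 0 := by
    rw [h1, h2, mul_assoc, mul_assoc, ← mul_sub, h0, mul_zero]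
  have h4 : (si : ℤ) * sj * Q * (μq * vp - μp * vq) = 0 := by
    push_cast at h3
    linarith
  have hsi' : (si : ℤ) ≠ 0 := by exact_mod_cast hsi.ne'
  have hsj' : (sj : ℤ) ≠ 0 := by exact_mod_cast hsj.ne'
  have hQ' : (Q : ℤ) ≠ 0 := by exact_mod_cast hQ.ne'
  have h5 : (μq : ℤ) * vp - μp * vq = 0 := by
    rcases mul_eq_zero.mp h4 with h | h
    · exact absurd h (mul_ne_zero (mul_ne_zero hsi' hsj') hQ')
    · exact h
  apply hv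
  have h6 : (μq : ℤ) * vp = μp * vq := by linarith
  exact_mod_cast h6

theorem LDD (hBOX : ∀ k, 1 ≤ k → BOXk k) (hPRT : PRT_stmt) (hLPG : LPG_stmt) (hLHZ : LHZ_stmt)
    (hLJA : LJA_stmt) (hLJI : LJI_stmt) (hLJD : LJD_stmt) (hLCD : LCD_stmt) : LDD_stmt := by
  classical
  intro k m hk hm
  obtain ⟨K₁, hK₁⟩ := hBOX (m * k) (Nat.mul_pos hm hk)
  obtain ⟨K₀, hKK, hK₀⟩ : ∃ K₀ : ℕ, K₁ ≤ K₀ ∧ 1 ≤ K₀ := ⟨max K₁ 1, le_max_left _ _, le_max_right _ _⟩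
  obtain ⟨W, hW⟩ : ∃ W : ℕ, W = (m * k * K₀).factorial := ⟨_, rfl⟩
  have hW1 : 1 ≤ W := by rw [hW]; exact Nat.factorial_pos _
  refine ⟨K₀ * W, Nat.mul_pos hK₀ hW1, fun θ s hs => ?_⟩
  by_cases hB : BoxT θ k s (K₀ * W)
  · exact Or.inl hB
  right
  intro μ hμ
  obtain ⟨H, hHc, hHW, hHf⟩ := hLPG θ k K₀ W s hW1 hB
  obtain ⟨Q, hQ⟩ : ∃ Q : ℕ, Q = W * ∏ p, μ p := ⟨_, rfl⟩
  have hQ0 : 0 < Q := by
    rw [hQ]
    exact Nat.mul_pos hW1 (Finset.prod_pos fun p _ => hμ p)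
  have hWp : ∀ p : ℕ, p.Prime → p ≤ m * k * K₀ → p ∣ W := by
    intro p hp hle
    rw [hW]
    exact Nat.dvd_factorial hp.pos hle
  have hkK : k * K₀ ≤ m * k * K₀ := by
    have : k ≤ m * k := Nat.le_mul_of_pos_left k hm
    exact Nat.mul_le_mul_right K₀ this
  have hmk : m * k ≤ m * k * K₀ := Nat.le_mul_of_pos_right _ hK₀
  obtain ⟨h₀, hh₀⟩ := hLHZ k K₀ Q s H hK₀ hQ0 hHc
    (fun p hp hpk i x hx y hy => dvd_trans (Int.natCast_dvd_natCast.mpr (hWp p hp (hpk.trans hkK))) (hHW i x hx y hy))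
    (fun h hh => (hHf h hh).1)
  obtain ⟨v, hv⟩ := LDD_v μ hμ
  obtain ⟨t₀, ht₀⟩ := hLJI k m Q s H μ v h₀ hQ0 hs hμ hv (fun y hy => (hHf y hy).2.1)
  -- the index type
  let ι : Type := {e : Finset (Fin m) × (Fin m → Fin k) × (Fin m → ↥(Fintype.piFinset H)) //
    (m : ℝ) * (1 / 4 + 1 / 500000) < θ * #e.1}
  have hfin : Finite ι := Subtype.finite
  let instι : Fintype ι := Fintype.ofFinite ι
  have key := hLCD ι (Fin m × Fin m)
    (fun e j => (((s (e.1.2.1 j.2) * μ j.2 / Nat.gcd (s (e.1.2.1 j.1) * μ j.1) (s (e.1.2.1 j.2) * μ j.2) : ℕ) : ℤ) *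
        (s (e.1.2.1 j.1) * ((Q : ℤ) * v j.1)) -
      ((s (e.1.2.1 j.1) * μ j.1 / Nat.gcd (s (e.1.2.1 j.1) * μ j.1) (s (e.1.2.1 j.2) * μ j.2) : ℕ) : ℤ) *
        (s (e.1.2.1 j.2) * ((Q : ℤ) * v j.2))))
    (fun e j => (((s (e.1.2.1 j.2) * μ j.2 / Nat.gcd (s (e.1.2.1 j.1) * μ j.1) (s (e.1.2.1 j.2) * μ j.2) : ℕ) : ℤ) *
        (s (e.1.2.1 j.1) * h₀ + (e.1.2.2 j.1 : Fin k → ℤ) (e.1.2.1 j.1)) -
      ((s (e.1.2.1 j.1) * μ j.1 / Nat.gcd (s (e.1.2.1 j.1) * μ j.1) (s (e.1.2.1 j.2) * μ j.2) : ℕ) : ℤ) *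
        (s (e.1.2.1 j.2) * h₀ + (e.1.2.2 j.2 : Fin k → ℤ) (e.1.2.1 j.2))))
    (fun e j => j.1 ∈ e.1.1 ∧ j.2 ∈ e.1.1 ∧ j.1 ≠ j.2)
    (fun e j c => TrueCase (μ j.2 * s (e.1.2.1 j.2) / Nat.gcd (μ j.1 * s (e.1.2.1 j.1)) (μ j.2 * s (e.1.2.1 j.2)))
      (μ j.1 * s (e.1.2.1 j.1) / Nat.gcd (μ j.1 * s (e.1.2.1 j.1)) (μ j.2 * s (e.1.2.1 j.2))) c)
    t₀
    (fun e j hj => LDD_ne (μ j.1) (μ j.2) (s (e.1.2.1 j.1)) (s (e.1.2.1 j.2)) Q (v j.1) (v j.2) (hs _) (hs _) hQ0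
      (hv j.1 j.2 hj.2.2))
  have h2 : ∀ t : ℕ, t₀ ≤ t → ∃ e : ι, ∀ j : Fin m × Fin m, (j.1 ∈ e.1.1 ∧ j.2 ∈ e.1.1 ∧ j.1 ≠ j.2) →
      TrueCase (μ j.2 * s (e.1.2.1 j.2) / Nat.gcd (μ j.1 * s (e.1.2.1 j.1)) (μ j.2 * s (e.1.2.1 j.2)))
      (μ j.1 * s (e.1.2.1 j.1) / Nat.gcd (μ j.1 * s (e.1.2.1 j.1)) (μ j.2 * s (e.1.2.1 j.2)))
      ((((s (e.1.2.1 j.2) * μ j.2 / Nat.gcd (s (e.1.2.1 j.1) * μ j.1) (s (e.1.2.1 j.2) * μ j.2) : ℕ) : ℤ) *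
        (s (e.1.2.1 j.1) * ((Q : ℤ) * v j.1)) -
      ((s (e.1.2.1 j.1) * μ j.1 / Nat.gcd (s (e.1.2.1 j.1) * μ j.1) (s (e.1.2.1 j.2) * μ j.2) : ℕ) : ℤ) *
        (s (e.1.2.1 j.2) * ((Q : ℤ) * v j.2))) * t +
      (((s (e.1.2.1 j.2) * μ j.2 / Nat.gcd (s (e.1.2.1 j.1) * μ j.1) (s (e.1.2.1 j.2) * μ j.2) : ℕ) : ℤ) *
        (s (e.1.2.1 j.1) * h₀ + (e.1.2.2 j.1 : Fin k → ℤ) (e.1.2.1 j.1)) -
      ((s (e.1.2.1 j.1) * μ j.1 / Nat.gcd (s (e.1.2.1 j.1) * μ j.1) (s (e.1.2.1 j.2) * μ j.2) : ℕ) : ℤ) *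
        (s (e.1.2.1 j.2) * h₀ + (e.1.2.2 j.2 : Fin k → ℤ) (e.1.2.1 j.2)))) := by
    intro t ht
    have hAdm : ∀ x : Fin m → Fin k → ℤ, (∀ p, x p ∈ Fintype.piFinset H) →
        Adm (cop m s μ (fun p => h₀ + Q * (v p * t)) x) := by
      intro x hx
      refine hLJA k m Q s H μ (fun p => h₀ + Q * (v p * t)) h₀ ?_ ?_ ?_ hh₀ (fun y hy => (hHf y hy).1) x hx
      · intro p hp hle
        rw [hQ]
        exact Dvd.dvd.mul_right (hWp p hp (hle.trans hmk)) _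
      · intro p
        rw [hQ]
        exact Dvd.dvd.mul_left (Finset.dvd_prod_of_mem μ (Finset.mem_univ p)) _
      · intro p
        refine ⟨v p * t, ?_⟩
        ring
    obtain ⟨x, hx, hM⟩ := LDD_box hK₁ hKK s H μ (fun p => h₀ + Q * (v p * t)) hs hμ hHc
      (fun x hx => ⟨hAdm x hx, ht₀ t ht x hx⟩)
    obtain ⟨I, i, hI, hN⟩ := hLJD k m θ s μ (fun p => h₀ + Q * (v p * t)) x hμ (fun p => (hHf _ (hx p)).2.2) hM
    refine ⟨⟨(I, i, fun p => ⟨x p, hx p⟩), hI⟩, ?_⟩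
    rintro ⟨p, q⟩ ⟨hp, hq, hpq⟩
    simp only at hp hq hpq ⊢
    have hP := hPRT (s (i p) * μ p, s (i p) * (h₀ + Q * (v p * t)) + x p (i p))
      (s (i q) * μ q, s (i q) * (h₀ + Q * (v q * t)) + x q (i q)) (Nat.mul_pos (hs _) (hμ _)) (Nat.mul_pos (hs _) (hμ _))
      (by
        intro heq
        have h3 : cop m s μ (fun p => h₀ + Q * (v p * t)) x (finProdFinEquiv (p, i p)) =
            cop m s μ (fun p => h₀ + Q * (v p * t)) x (finProdFinEquiv (q, i q)) := by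
          unfold cop
          simp only [Equiv.symm_apply_apply]
          exact heq
        have h4 := finProdFinEquiv.injective (ht₀ t ht x hx h3)
        exact hpq (congrArg Prod.fst h4))
      (by
        intro l hl
        obtain ⟨n, hn⟩ := hAdm x hx l hl
        refine ⟨n, fun r => ?_⟩
        have h5 := hn (finProdFinEquiv (p, i p))
        have h6 := hn (finProdFinEquiv (q, i q))
        unfold cop at h5 h6
        simp only [Equiv.symm_apply_apply] at h5 h6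
        fin_cases r
        · exact h5
        · exact h6)
      (fun N => by
        obtain ⟨n, hn, hpr⟩ := hN N
        exact ⟨n, hn, hpr p hp, hpr q hq⟩)
    unfold Pair at hP
    simp only at hP
    rw [LDD_val (s (i p) * μ p) (s (i q) * μ q) (s (i p)) (s (i q)) h₀ Q (v p) (v q) (x p (i p)) (x q (i q)) t
      (Nat.mul_pos (hs _) (hμ _))] at hP
    rw [mul_comm (μ q) (s (i q)), mul_comm (μ p) (s (i p))]
    exact hP
  obtain ⟨e, δ, hδ, hX⟩ := key h2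
  refine ⟨e.1.1, e.1.2.1, δ, hδ, e.2, fun X₀ => ?_⟩
  obtain ⟨X, hX₀, hXj⟩ := hX X₀
  exact ⟨X, hX₀, fun p hp q hq hpq => hXj (p, q) ⟨hp, hq, hpq⟩⟩

end Pool.Agent.LD
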