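import Pool.Agent.helper7.AL.Spec

set_option autoImplicit false

namespace Pool.Agent.AL

open Finset Pool.Agent.helper85.FC Pool.Agent.helper11.MK

private lemma HEX_crt (S : Finset ℕ) (hS : ∀ l ∈ S, l.Prime) (f : ℕ → ℤ) :
    ∃ g : ℤ, ∀ l ∈ S, (l : ℤ) ∣ g - f l := by
  induction S using Finset.induction_on with
  | empty => exact ⟨0, fun l hl => absurd hl (Finset.notMem_empty l)⟩
  | insert l S hl ih =>
    obtain ⟨g', hg'⟩ := ih (fun q hq => hS q (Finset.mem_insert_of_mem hq))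
    have hlp : l.Prime := hS l (Finset.mem_insert_self l S)
    have hcop : IsCoprime (∏ q ∈ S, (q : ℤ)) (l : ℤ) := by
      apply IsCoprime.prod_left
      intro q hq
      have hqp : q.Prime := hS q (Finset.mem_insert_of_mem hq)
      rw [Nat.isCoprime_iff_coprime]
      apply (Nat.coprime_primes hqp hlp).mpr
      intro h
      rw [h] at hq
      exact hl hq
    obtain ⟨u, v, huv⟩ := hcop
    refine ⟨g' + u * (∏ q ∈ S, (q : ℤ)) * (f l - g'), ?_⟩
    intro q hq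
    rcases Finset.mem_insert.mp hq with h | h
    · subst h
      refine ⟨-(v * (f q - g')), ?_⟩
      have e1 : u * (∏ q ∈ S, (q : ℤ)) = 1 - v * q := by linarith
      rw [e1]
      ring
    · have h1 : (q : ℤ) ∣ ∏ q ∈ S, (q : ℤ) := Finset.dvd_prod_of_mem _ h
      have e1 : g' + u * (∏ q ∈ S, (q : ℤ)) * (f l - g') - f q =
          (g' - f q) + u * (∏ q ∈ S, (q : ℤ)) * (f l - g') := by ring
      rw [e1]
      exact dvd_add (hg' q h) (Dvd.dvd.mul_right (Dvd.dvd.mul_left h1 u) _)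

theorem HEX (h : SOL_stmt) : HEX_stmt := by
  intro a b u₀ c ha hb hab hS0
  have hne : 6 * a * b ≠ 0 := by positivity
  have hmem : ∀ l, l ∈ (6 * a * b).primeFactors ↔ l.Prime ∧ l ∣ 6 * a * b := by
    intro l
    rw [Nat.mem_primeFactors]
    exact ⟨fun h => ⟨h.1, h.2.1⟩, fun h => ⟨h.1, h.2, hne⟩⟩
  have hex : ∀ l : ℕ, ∃ x : ℤ × ℤ, l.Prime → l ∣ 6 * a * b → (l : ℤ) ∣ c - (a * x.1 - b * x.2) ∧
      ¬ (l : ℤ) ∣ x.1 ∧ ¬ (l : ℤ) ∣ x.1 + u₀ ∧ ¬ (l : ℤ) ∣ x.2 ∧ ¬ (l : ℤ) ∣ x.2 + u₀ := by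
    intro l
    by_cases hl : l.Prime ∧ l ∣ 6 * a * b
    · obtain ⟨x, y, h1, h2, h3, h4, h5⟩ := hS0 l hl.1 hl.2
      exact ⟨(x, y), fun _ _ => ⟨h1, h2, h3, h4, h5⟩⟩
    · exact ⟨(0, 0), fun h1 h2 => absurd ⟨h1, h2⟩ hl⟩
  choose x hx using hex
  have hpr : ∀ l ∈ (6 * a * b).primeFactors, l.Prime := fun l hl => ((hmem l).mp hl).1
  obtain ⟨g, hg⟩ := HEX_crt _ hpr (fun l => (x l).1)
  obtain ⟨g', hg'⟩ := HEX_crt _ hpr (fun l => (x l).2)
  have hdvd : ∀ l ∈ (6 * a * b).primeFactors, (l : ℤ) ∣ c - (a * g - b * g') := by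
    intro l hl
    obtain ⟨h1, h2⟩ := (hmem l).mp hl
    have e1 : c - (a * g - b * g') = (c - (a * (x l).1 - b * (x l).2)) - a * (g - (x l).1) +
        b * (g' - (x l).2) := by ring
    rw [e1]
    exact dvd_add (dvd_sub (hx l h1 h2).1 (Dvd.dvd.mul_left (hg l hl) _)) (Dvd.dvd.mul_left (hg' l hl) _)
  have hP : ((∏ l ∈ (6 * a * b).primeFactors, l : ℕ) : ℤ) ∣ c - (a * g - b * g') := by
    rw [Nat.cast_prod]
    apply Finset.prod_dvd_of_coprime _ hdvd
    intro p hp q hq hpq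
    rw [Function.onFun, Nat.isCoprime_iff_coprime]
    exact (Nat.coprime_primes (hpr p hp) (hpr q hq)).mpr hpq
  obtain ⟨k, k', hk, hk', hkc⟩ := h a b _ g g' c hab hP
  refine ⟨k, k', hkc, ?_⟩
  intro l hl hld
  have hlm : l ∈ (6 * a * b).primeFactors := (hmem l).mpr ⟨hl, hld⟩
  have hlP : (l : ℤ) ∣ ((∏ l ∈ (6 * a * b).primeFactors, l : ℕ) : ℤ) := by
    exact_mod_cast Finset.dvd_prod_of_mem _ hlm
  have h1 : (l : ℤ) ∣ k - (x l).1 := by
    have e1 : k - (x l).1 = (k - g) + (g - (x l).1) := by ring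
    rw [e1]
    exact dvd_add (hlP.trans hk) (hg l hlm)
  have h2 : (l : ℤ) ∣ k' - (x l).2 := by
    have e1 : k' - (x l).2 = (k' - g') + (g' - (x l).2) := by ring
    rw [e1]
    exact dvd_add (hlP.trans hk') (hg' l hlm)
  obtain ⟨_, n1, n2, n3, n4⟩ := hx l hl hld
  refine ⟨?_, ?_, ?_, ?_⟩
  · intro hh
    apply n1
    have e1 : (x l).1 = k - (k - (x l).1) := by ring
    rw [e1]
    exact dvd_sub hh h1
  · intro hh
    apply n2
    have e1 : (x l).1 + u₀ = (k + u₀) - (k - (x l).1) := by ring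
    rw [e1]
    exact dvd_sub hh h1
  · intro hh
    apply n3
    have e1 : (x l).2 = k' - (k' - (x l).2) := by ring
    rw [e1]
    exact dvd_sub hh h2
  · intro hh
    apply n4
    have e1 : (x l).2 + u₀ = (k' + u₀) - (k' - (x l).2) := by ring
    rw [e1]
    exact dvd_sub hh h2

end Pool.Agent.AL
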